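import Pool.Agent.H19.KL.Stmts2

/-!
# Project KL: module MK4
-/

set_option autoImplicit false

open MeasureTheory Set
open scoped ContDiff

namespace Pool.Agent.H19.KL

open Pool.Agent.H84 Pool.Agent.H84.Sym Pool.Agent.H84.Sym.P2x Pool.Agent.H84.Sym.C29
open Pool.Agent.H73.Lp

namespace MK4

private theorem pointwise {t : ℝ} (ht : 0 < t) (N : ℕ) (y : ℝ) (hy0 : 0 ≤ y) (hy : y < N * t) :
    y ^ 4 ≤ t ^ 4 * ∑ k ∈ Finset.range N,
      (if (k:ℝ) * t ≤ y then (((k:ℝ) + 1) ^ 4 - (k:ℝ) ^ 4) else 0) := by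
  induction N with
  | zero =>
    exfalso
    simp at hy
    linarith
  | succ N ih =>
    rw [Finset.sum_range_succ]
    by_cases h : y < N * t
    · have := ih h
      rw [if_neg (not_le.mpr h), add_zero]
      exact this
    · push Not at h
      rw [if_pos h]
      have h1 : ∀ k ∈ Finset.range N, (if (k:ℝ) * t ≤ y then (((k:ℝ) + 1) ^ 4 - (k:ℝ) ^ 4) else 0) =
          ((((k + 1 : ℕ) : ℝ)) ^ 4 - (k:ℝ) ^ 4) := by
        intro k hk
        rw [if_pos]
        · push_cast
          ring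
        · have : (k:ℝ) ≤ N := by exact_mod_cast (Finset.mem_range.mp hk).le
          exact (mul_le_mul_of_nonneg_right this ht.le).trans h
      rw [Finset.sum_congr rfl h1, Finset.sum_range_sub (fun k : ℕ => (k:ℝ) ^ 4)]
      have h2 : y ^ 4 ≤ ((N + 1 : ℕ) * t) ^ 4 := pow_le_pow_left₀ hy0 hy.le 4
      refine h2.trans (le_of_eq ?_)
      push_cast
      ring

private theorem numsum (N : ℕ) : ∑ k ∈ Finset.range N, ((k:ℝ) + 1) ^ 4 * (1 / 2) ^ k =
    300 - (2 * (N:ℝ) ^ 4 + 16 * N ^ 3 + 72 * N ^ 2 + 208 * N + 300) * (1 / 2) ^ N := by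
  induction N with
  | zero => simp
  | succ N ih =>
    rw [Finset.sum_range_succ, ih, pow_succ]
    push_cast
    ring

end MK4

open MK4 in
theorem mk4_thm (E : Type) [NormedAddCommGroup E] [InnerProductSpace ℝ E]
    [FiniteDimensional ℝ E] [MeasurableSpace E] [BorelSpace E] : MK4Stmt E := by
  intro K R v hK hsymm hv
  have hm := m1_pos hK hv
  have hV := SMB.vol_pos hK
  set m := m1 K v with hmdef
  set V := volume.real K with hVdef
  obtain ⟨t, ht⟩ : ∃ t : ℝ, t = 2 * m := ⟨_, rfl⟩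
  have ht0 : 0 < t := by rw [ht]; positivity
  obtain ⟨θ, hθ⟩ : ∃ θ : ℝ, θ = 2 * SMB.hv K v t / V := ⟨_, rfl⟩
  have hθ0 : 0 ≤ θ := by
    rw [hθ]
    exact div_nonneg (mul_nonneg (by norm_num) (SMB.hv_nonneg v t)) hV.le
  have hθ1 : 2 * SMB.hv K v t = θ * V := by
    rw [hθ, div_mul_cancel₀ _ hV.ne']
  -- Markov
  have hθ2 : θ ≤ 1 / 2 := by
    have h1 : t * volume.real (K ∩ {x | t ≤ |inner ℝ v x|}) ≤ ∫ x in K, |inner ℝ v x| := by
      have h2 : ∫ x in K, ({x : E | t ≤ |inner ℝ v x|}.indicator (fun _ => t) x) ≤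
          ∫ x in K, |inner ℝ v x| := by
        refine setIntegral_mono_on ?_ (SMB.int_abs hK v) hK.meas ?_
        · apply IntegrableOn.indicator _ (measurableSet_le measurable_const (by fun_prop))
          exact integrableOn_const hK.lt_top.ne
        · intro x _
          by_cases hx : t ≤ |inner ℝ v x|
          · rw [indicator_of_mem (show x ∈ {x : E | t ≤ |inner ℝ v x|} from hx)]
            exact hx
          · rw [indicator_of_notMem (show x ∉ {x : E | t ≤ |inner ℝ v x|} from hx)]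
            exact abs_nonneg _
      rw [setIntegral_indicator (measurableSet_le measurable_const (by fun_prop)),
        setIntegral_const, smul_eq_mul, mul_comm] at h2
      exact h2
    have h3 : ∫ x in K, |inner ℝ v x| = m * V := by
      rw [hmdef, m1, div_mul_cancel₀ _ hV.ne']
    rw [h3, SMB.abs_eq_two hK hsymm v ht0, hθ1, ht] at h1
    have h4 : 0 < m * V := by positivity
    nlinarith
  obtain ⟨M, hM⟩ := hK.bdd_of_cont (f := fun x => inner ℝ v x) (by fun_prop)
  obtain ⟨N, hN⟩ := exists_nat_gt (M / t)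
  have hcoef : ∀ k : ℕ, 0 ≤ ((k:ℝ) + 1) ^ 4 - (k:ℝ) ^ 4 := fun k => by
    have : (k:ℝ) ^ 4 ≤ ((k:ℝ) + 1) ^ 4 := pow_le_pow_left₀ (Nat.cast_nonneg k) (by linarith) 4
    linarith
  have hpt : ∀ x ∈ K, (|inner ℝ v x| / m) ^ 4 ≤ ∑ k ∈ Finset.range N,
      ({x : E | (k:ℝ) * t ≤ |inner ℝ v x|}.indicator
        (fun _ => 16 * (((k:ℝ) + 1) ^ 4 - (k:ℝ) ^ 4)) x) := by
    intro x hx
    have h1 : |inner ℝ v x| < N * t := by
      rw [div_lt_iff₀ ht0] at hN
      exact (hM x hx).trans_lt hN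
    have h2 := MK4.pointwise ht0 N _ (abs_nonneg _) h1
    rw [div_pow, div_le_iff₀ (by positivity)]
    refine h2.trans (le_of_eq ?_)
    rw [ht, mul_pow, Finset.mul_sum, Finset.sum_mul]
    apply Finset.sum_congr rfl
    intro k _
    simp only [indicator_apply, mem_ofPred_eq, mul_ite, mul_zero, ite_mul, zero_mul]
    split_ifs
    · ring
    · rfl
  have hindi : ∀ k : ℕ, IntegrableOn (fun x : E =>
      {x : E | (k:ℝ) * t ≤ |inner ℝ v x|}.indicator
        (fun _ => 16 * (((k:ℝ) + 1) ^ 4 - (k:ℝ) ^ 4)) x) K := by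
    intro k
    apply IntegrableOn.indicator _ (measurableSet_le measurable_const (by fun_prop))
    exact integrableOn_const hK.lt_top.ne
  have hint4 : IntegrableOn (fun x : E => (|inner ℝ v x| / m) ^ 4) K := by
    have : IntegrableOn (fun x : E => (|inner ℝ v x| / m) ^ 4) (Metric.closedBall (0 : E) R) :=
      (Continuous.continuousOn (by fun_prop)).integrableOn_compact (isCompact_closedBall _ _)
    exact this.mono_set hK.sub
  calc ∫ x in K, (|inner ℝ v x| / m) ^ 4 ≤ ∫ x in K, ∑ k ∈ Finset.range N,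
        ({x : E | (k:ℝ) * t ≤ |inner ℝ v x|}.indicator
          (fun _ => 16 * (((k:ℝ) + 1) ^ 4 - (k:ℝ) ^ 4)) x) :=
        setIntegral_mono_on hint4 (integrable_finsetSum _ fun k _ => hindi k) hK.meas hpt
    _ = ∑ k ∈ Finset.range N, ∫ x in K,
        ({x : E | (k:ℝ) * t ≤ |inner ℝ v x|}.indicator
          (fun _ => 16 * (((k:ℝ) + 1) ^ 4 - (k:ℝ) ^ 4)) x) :=
        integral_finsetSum _ (fun k _ => hindi k)
    _ ≤ ∑ k ∈ Finset.range N, 16 * (((k:ℝ) + 1) ^ 4 * (1 / 2) ^ k) * V := by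
        apply Finset.sum_le_sum
        intro k _
        rw [setIntegral_indicator (measurableSet_le measurable_const (by fun_prop)),
          setIntegral_const, smul_eq_mul]
        have h1 := SMB.abs_decay hK hsymm v ht0 hθ0 hθ1 k
        have h2 : θ ^ k ≤ (1 / 2) ^ k := pow_le_pow_left₀ hθ0 hθ2 k
        have h3 : volume.real (K ∩ {x | (k:ℝ) * t ≤ |inner ℝ v x|}) ≤ (1 / 2) ^ k * V :=
          h1.trans (mul_le_mul_of_nonneg_right h2 hV.le)
        have h4 : ((k:ℝ) + 1) ^ 4 - (k:ℝ) ^ 4 ≤ ((k:ℝ) + 1) ^ 4 := by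
          have : 0 ≤ (k:ℝ) ^ 4 := by positivity
          linarith
        calc volume.real (K ∩ {x | (k:ℝ) * t ≤ |inner ℝ v x|}) *
              (16 * (((k:ℝ) + 1) ^ 4 - (k:ℝ) ^ 4)) ≤
              ((1 / 2) ^ k * V) * (16 * ((k:ℝ) + 1) ^ 4) := by
              have := hcoef k
              gcongr
          _ = _ := by ring
    _ = 16 * V * ∑ k ∈ Finset.range N, ((k:ℝ) + 1) ^ 4 * (1 / 2) ^ k := by
        rw [Finset.mul_sum]
        apply Finset.sum_congr rfl
        intro k _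
        ring
    _ ≤ 16 * V * 300 := by
        rw [MK4.numsum]
        have : 0 ≤ (2 * (N:ℝ) ^ 4 + 16 * N ^ 3 + 72 * N ^ 2 + 208 * N + 300) * (1 / 2) ^ N := by
          positivity
        gcongr
        linarith
    _ ≤ 40000000 * V := by linarith

end Pool.Agent.H19.KL
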