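import Pool.Agent.H19.KL.Stmts2

/-!
# Project KL: module REV
-/

set_option autoImplicit false

open MeasureTheory Set
open scoped ContDiff

namespace Pool.Agent.H19.KL

open Pool.Agent.H84 Pool.Agent.H84.Sym Pool.Agent.H84.Sym.P2x Pool.Agent.H84.Sym.C29
open Pool.Agent.H73.Lp

theorem rev_thm (E : Type) [NormedAddCommGroup E] [InnerProductSpace ℝ E]
    [FiniteDimensional ℝ E] [MeasurableSpace E] [BorelSpace E] (h1 : RHOStmt E) : REVStmt E := by
  intro U t C hU e r hr s y hs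
  have hadm : Adm U s := adm_of_pot hU hs
  have hp : Pot (np U s y) (t + s) (C + s * (1 + ‖y‖)) := np_pot (pot_add_quad hU hs.le y).1
  have hprob := prob_np hadm y
  have ha := (h1 _ _ _ hp hprob e r hr).2
  have hb := (h1 _ _ _ hp hprob e (2 * r) (by linarith)).2
  rw [int_np hadm, int_np hadm] at ha hb
  have e4 : (fun x => (|(inner ℝ e x : ℝ)| ^ r) ^ 4) = fun x => |(inner ℝ e x : ℝ)| ^ (2 * (2 * r)) := by
    ext x
    rw [← Real.rpow_natCast, ← Real.rpow_mul (abs_nonneg _)]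
    congr 1
    push_cast
    ring
  rw [e4]
  have hA : 0 ≤ av U s (fun x => |(inner ℝ e x : ℝ)| ^ r) y :=
    av_nonneg hadm (fun x => Real.rpow_nonneg (abs_nonneg _) _) y
  have hB : 0 ≤ av U s (fun x => |(inner ℝ e x : ℝ)| ^ (2 * r)) y :=
    av_nonneg hadm (fun x => Real.rpow_nonneg (abs_nonneg _) _) y
  set A := av U s (fun x => |(inner ℝ e x : ℝ)| ^ r) y with hAdef
  set B := av U s (fun x => |(inner ℝ e x : ℝ)| ^ (2 * r)) y with hBdef
  have e9 : (9:ℝ) ^ (2 * r) = 81 ^ r := by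
    rw [Real.rpow_mul (by norm_num)]
    norm_num
  have e99 : ((9:ℝ) ^ r) ^ 2 = 81 ^ r := by
    rw [← e9, ← Real.rpow_natCast, ← Real.rpow_mul (by norm_num)]
    congr 1
    push_cast
    ring
  rw [e9] at hb
  have h81 : (0:ℝ) < 81 ^ r := Real.rpow_pos_of_pos (by norm_num) _
  have h9 : (0:ℝ) < 9 ^ r := Real.rpow_pos_of_pos (by norm_num) _
  calc av U s (fun x => |(inner ℝ e x : ℝ)| ^ (2 * (2 * r))) y ≤ 18 * 81 ^ r * B ^ 2 := hb
    _ ≤ 18 * 81 ^ r * (18 * 9 ^ r * A ^ 2) ^ 2 := by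
        gcongr
    _ = 5832 * 81 ^ r * ((9:ℝ) ^ r) ^ 2 * A ^ 4 := by ring
    _ = 5832 * (81 ^ r) ^ 2 * A ^ 4 := by rw [e99]; ring
    _ ≤ 5929 * (81 ^ r) ^ 2 * A ^ 4 := by
        gcongr
        norm_num
    _ = _ := by ring

end Pool.Agent.H19.KL
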